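import Pool.Agent.H78.STN.Stmts2

/-!
# Row `EN0` of the board `sto`
-/

set_option autoImplicit false

namespace Pool.STN

def en0_ok (s : ℕ) : Bool :=
  Nat.beq (s % 3) 0 || Nat.ble s 4 || Nat.beq s 44 || Nat.beq s 62 || Nat.beq s 70 ||
    Nat.beq s 74 || sim 70 s s 3

def en0_blk : ℕ → ℕ → Bool
  | 0, _ => true
  | n + 1, s => en0_ok s && en0_blk n (s + 2)

theorem en0_blk_spec : ∀ (n s : ℕ), en0_blk n s = true → ∀ i < n, en0_ok (s + 2 * i) = true := by
  intro n
  induction n with
  | zero =>
    intro s _ i hi
    omega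
  | succ n ih =>
    intro s h i hi
    rw [en0_blk, Bool.and_eq_true] at h
    rcases Nat.eq_zero_or_pos i with h0 | h0
    · subst h0
      simpa using h.1
    · have h1 := ih (s + 2) h.2 (i - 1) (by omega)
      have e : s + 2 + 2 * (i - 1) = s + 2 * i := by omega
      rw [e] at h1
      exact h1

theorem en0_b0 : en0_blk 500 0 = true := by decide +kernel

theorem en0_b1 : en0_blk 500 1000 = true := by decide +kernel

theorem en0_b2 : en0_blk 500 2000 = true := by decide +kernel

theorem en0_b3 : en0_blk 500 3000 = true := by decide +kernel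

theorem en0_b4 : en0_blk 500 4000 = true := by decide +kernel

theorem en0_b5 : en0_blk 500 5000 = true := by decide +kernel

theorem en0_b6 : en0_blk 500 6000 = true := by decide +kernel

theorem en0_b7 : en0_blk 500 7000 = true := by decide +kernel

theorem en0_b8 : en0_blk 500 8000 = true := by decide +kernel

theorem en0_b9 : en0_blk 500 9000 = true := by decide +kernel

theorem en0_b10 : en0_blk 500 10000 = true := by decide +kernel

theorem EN0_thm : ENStmt 0 := by
  intro m0 _ h2 he h3 h5 h44 h62 h70 h74
  have hall : ∀ b < 11, en0_blk 500 (1000 * b) = true := by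
    intro b hb
    interval_cases b
    · exact en0_b0
    · exact en0_b1
    · exact en0_b2
    · exact en0_b3
    · exact en0_b4
    · exact en0_b5
    · exact en0_b6
    · exact en0_b7
    · exact en0_b8
    · exact en0_b9
    · exact en0_b10
  have h := en0_blk_spec 500 (1000 * (m0 / 1000)) (hall (m0 / 1000) (by omega))
    (m0 % 1000 / 2) (by omega)
  have e : 1000 * (m0 / 1000) + 2 * (m0 % 1000 / 2) = m0 := by omega
  rw [e] at h
  have g3 : Nat.beq (m0 % 3) 0 = false := by
    rw [Bool.eq_false_iff]; intro hh; exact h3 (Nat.eq_of_beq_eq_true hh)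
  have g5 : Nat.ble m0 4 = false := by
    rw [Bool.eq_false_iff]; intro hh; have := Nat.le_of_ble_eq_true hh; omega
  have g44 : Nat.beq m0 44 = false := by
    rw [Bool.eq_false_iff]; intro hh; exact h44 (Nat.eq_of_beq_eq_true hh)
  have g62 : Nat.beq m0 62 = false := by
    rw [Bool.eq_false_iff]; intro hh; exact h62 (Nat.eq_of_beq_eq_true hh)
  have g70 : Nat.beq m0 70 = false := by
    rw [Bool.eq_false_iff]; intro hh; exact h70 (Nat.eq_of_beq_eq_true hh)
  have g74 : Nat.beq m0 74 = false := by
    rw [Bool.eq_false_iff]; intro hh; exact h74 (Nat.eq_of_beq_eq_true hh)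
  unfold en0_ok at h
  rw [g3, g5, g44, g62, g70, g74] at h
  simpa using h

end Pool.STN
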